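import Pool.Agent.Q230.HD.St

/-!
# Project HD, part D: from invertible matrices to numbers
-/

set_option autoImplicit false

namespace Pool.Agent.Q63.HD

open Pool.Agent.NPC Pool.Agent.NPC.ER Matrix
open Pool.Agent.Q230.HD

/-- the unit vector -/
def ek (K t : ℕ) : Fin K → ℝ := fun l => if t = (l : ℕ) then 1 else 0

/-- the eigenvector of a shear -/
def fk (K p : ℕ) (c : ℝ) (t : ℕ) : Fin K → ℝ :=
  fun l => if t = (l : ℕ) then 1 else if p = (l : ℕ) then c else 0

theorem ek_ne {K t : ℕ} (ht : t < K) : ek K t ≠ 0 := by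
  intro h
  have := congrFun h ⟨t, ht⟩
  simp [ek] at this

theorem fk_ne {K p : ℕ} {c : ℝ} {t : ℕ} (ht : t < K) : fk K p c t ≠ 0 := by
  intro h
  have := congrFun h ⟨t, ht⟩
  simp [fk] at this

theorem smul_ne_aux {K : ℕ} {N : Matrix (Fin K) (Fin K) ℝ} (hN : IsUnit N) {y v : Fin K → ℝ}
    (hy : y ≠ 0) {s : ℝ} (h : N *ᵥ y = s • v) : s ≠ 0 := by
  intro hs
  rw [hs, zero_smul] at h
  apply hy
  have h1 := Matrix.mulVec_injective_iff_isUnit.2 hN
  apply h1
  simp only [h, Matrix.mulVec_zero]

theorem eig_aux {K : ℕ} {N : Matrix (Fin K) (Fin K) ℝ} (hN : IsUnit N) {y v : Fin K → ℝ}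
    (hy : y ≠ 0) {s₀ s₁ : ℝ} (h₀ : y = s₀ • v) (h : N *ᵥ y = s₁ • v) :
    ∃ μ : ℝ, μ ≠ 0 ∧ N *ᵥ y = μ • y := by
  have h1 : s₀ ≠ 0 := by
    intro hs
    rw [hs, zero_smul] at h₀
    exact hy h₀
  have h2 := smul_ne_aux hN hy h
  refine ⟨s₁ / s₀, div_ne_zero h2 h1, ?_⟩
  rw [h]
  have h3 : v = s₀⁻¹ • y := by
    rw [h₀, smul_smul, inv_mul_cancel₀ h1, one_smul]
  rw [h3, smul_smul, div_eq_mul_inv]

theorem diag_of {K : ℕ} {N : Matrix (Fin K) (Fin K) ℝ} {μ : ℕ → ℝ}
    (h : ∀ t < K, N *ᵥ ek K t = μ t • ek K t) (Z : Fin K → ℝ) :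
    N *ᵥ Z = fun l : Fin K => μ l * Z l := by
  have h1 : ∀ u t : Fin K, N u t = if t = u then μ t else 0 := by
    intro u t
    have h2 := congrFun (h t t.2) u
    simp only [Matrix.mulVec, dotProduct, ek, Pi.smul_apply, smul_eq_mul, mul_ite, mul_one,
      mul_zero, Fin.val_inj, Finset.sum_ite_eq, Finset.mem_univ, if_true] at h2
    exact h2
  ext u
  simp only [Matrix.mulVec, dotProduct, h1, ite_mul, zero_mul, Finset.sum_ite_eq', Finset.mem_univ,
    if_true]

theorem mulVec_sum_aux {K : ℕ} {α : Type} (N : Matrix (Fin K) (Fin K) ℝ) (f : α → Fin K → ℝ)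
    (L : List α) : N *ᵥ (L.map f).sum = (L.map fun u => N *ᵥ f u).sum := by
  induction L with
  | nil => simp
  | cons u L ih => simp [Matrix.mulVec_add, ih]

theorem sum_ap {K : ℕ} {α : Type} (f : α → Fin K → ℝ) (L : List α) (l : Fin K) :
    (L.map f).sum l = (L.map fun u => f u l).sum := by
  induction L with
  | nil => simp
  | cons u L ih => simp [ih]

theorem sum_pick (μ : ℕ → ℝ) (l : ℕ) (L : List (ℕ × ℚ)) (hn : (L.map Prod.fst).Nodup) :
    (L.map fun u => μ u.1 * (if u.1 = l then (1 : ℝ) else 0)).sum =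
      if l ∈ L.map Prod.fst then μ l else 0 := by
  induction L with
  | nil => simp
  | cons u L ih =>
    rw [List.map_cons, List.nodup_cons] at hn
    have h1 := ih hn.2
    rw [List.map_cons, List.sum_cons, h1]
    by_cases hu : u.1 = l
    · rw [hu] at hn
      rw [if_pos hu, if_neg hn.1, if_pos (by rw [List.map_cons, hu]; simp), hu]
      ring
    · rw [if_neg hu]
      have h2 : l ∈ (u :: L).map Prod.fst ↔ l ∈ L.map Prod.fst := by
        rw [List.map_cons, List.mem_cons]
        constructor
        · rintro (h | h)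
          · exact absurd h.symm hu
          · exact h
        · intro h; exact Or.inr h
      by_cases h3 : l ∈ L.map Prod.fst
      · rw [if_pos h3, if_pos (h2.2 h3)]; ring
      · rw [if_neg h3, if_neg (fun h => h3 (h2.1 h))]; ring

theorem cof_eq {L : List (ℕ × ℚ)} (hn : (L.map Prod.fst).Nodup) :
    ∀ u ∈ L, cof L u.1 = u.2 := by
  induction L with
  | nil => simp
  | cons w L ih =>
    rw [List.map_cons, List.nodup_cons] at hn
    intro u hu
    rcases List.mem_cons.1 hu with h | h
    · rw [h]; simp [cof]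
    · have h1 : w.1 ≠ u.1 := by
        intro h2
        apply hn.1
        rw [h2]
        exact List.mem_map_of_mem h
      simp only [cof, if_neg h1]
      exact ih hn.2 u h

theorem cast_sum (M : List (ℕ × ℚ)) : (((M.map Prod.snd).sum : ℚ) : ℝ) =
    (M.map fun u => ((u.2 : ℚ) : ℝ)).sum := by
  induction M with
  | nil => simp
  | cons u M ih =>
    simp only [List.map_cons, List.sum_cons]
    push_cast
    congr 1
    rw [← ih]
    push_cast
    rfl

theorem cf_map (b : ℕ) (L : List (ℕ × ℚ)) (y : Row) (a l : ℕ) :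
    cf ((L.map fun u => (b, u.1, (1 : ℚ))) ++ y) a l =
      if b = a ∧ l ∈ L.map Prod.fst then 1 else cf y a l := by
  induction L with
  | nil => simp
  | cons u L ih =>
    rw [List.map_cons, List.cons_append]
    simp only [cf]
    rw [ih]
    by_cases hb : b = a
    · by_cases hu : u.1 = l
      · rw [if_pos ⟨hb, hu⟩, if_pos ⟨hb, by rw [List.map_cons, hu]; simp⟩]
      · rw [if_neg (fun h => hu h.2)]
        have h2 : l ∈ (u :: L).map Prod.fst ↔ l ∈ L.map Prod.fst := by
          rw [List.map_cons, List.mem_cons]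
          constructor
          · rintro (h | h)
            · exact absurd h.symm hu
            · exact h
          · intro h; exact Or.inr h
        by_cases h3 : l ∈ L.map Prod.fst
        · rw [if_pos ⟨hb, h3⟩, if_pos ⟨hb, h2.2 h3⟩]
        · rw [if_neg (fun h => h3 h.2), if_neg (fun h => h3 (h2.1 h.2))]
    · rw [if_neg (fun h => hb h.1), if_neg (fun h => hb h.1), if_neg (fun h => hb h.1)]

/-- The matrices can be normalised. -/
theorem par_norm {R K : ℕ} {rows : List Row} (hR : 0 < R) (h : Par R K rows) :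
    ∃ N : ℕ → Matrix (Fin K) (Fin K) ℝ, N 0 = 1 ∧ (∀ a < R, IsUnit (N a)) ∧
      ∀ x ∈ rows, ∃ v : Fin K → ℝ, ∀ a < R, ∃ s : ℝ, N a *ᵥ bv K x a = s • v := by
  obtain ⟨B, hB, hx⟩ := h
  have h0 := hB 0 hR
  have hdet : IsUnit (B 0).det := (Matrix.isUnit_iff_isUnit_det _).1 h0
  refine ⟨fun a => (B 0)⁻¹ * B a, ?_, ?_, ?_⟩
  · exact Matrix.nonsing_inv_mul _ hdet
  · intro a ha
    apply IsUnit.mul _ (hB a ha)
    rw [Matrix.isUnit_iff_isUnit_det]
    exact Matrix.isUnit_nonsing_inv_det _ hdet
  · intro x hxr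
    obtain ⟨v, hv⟩ := hx x hxr
    refine ⟨(B 0)⁻¹ *ᵥ v, fun a ha => ?_⟩
    obtain ⟨s, hs⟩ := hv a ha
    refine ⟨s, ?_⟩
    rw [← Matrix.mulVec_mulVec, hs, Matrix.mulVec_smul]

/-- **S_D.** -/
theorem sd : S_D := by
  intro D K Ls Rs hLs hRs hpar
  obtain ⟨N, hN0, hN, hrow⟩ := par_norm (by omega) hpar
  -- registers
  have hreg : ∀ r t : ℕ, ∃ μ : ℝ, μ ≠ 0 ∧
      (r < D → t < K → N (1 + r) *ᵥ ek K t = μ • ek K t) := by
    intro r t
    by_cases hr : r < D
    · by_cases ht : t < K
      · have hmem : ([(0, t, 1), (1 + r, t, 1)] : Row) ∈ rws D K Ls Rs := by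
          unfold rws
          simp only [List.mem_append]
          refine Or.inl (Or.inl (Or.inr ?_))
          unfold rowsD
          rw [List.mem_flatMap]
          exact ⟨r, List.mem_range.2 hr, List.mem_map.2 ⟨t, List.mem_range.2 ht, rfl⟩⟩
        obtain ⟨v, hv⟩ := hrow _ hmem
        obtain ⟨s₀, h₀⟩ := hv 0 (by omega)
        obtain ⟨s₁, h₁⟩ := hv (1 + r) (by omega)
        have e0 : bv K ([(0, t, 1), (1 + r, t, 1)] : Row) 0 = ek K t := by
          ext l
          simp only [bv, cf, ek, true_and]
          by_cases h : t = (l : ℕ)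
          · rw [if_pos h, if_pos h]; norm_num
          · rw [if_neg h, if_neg h, if_neg (fun h' => h h'.2)]; norm_num
        have e1 : bv K ([(0, t, 1), (1 + r, t, 1)] : Row) (1 + r) = ek K t := by
          ext l
          simp only [bv, cf, ek, true_and]
          rw [if_neg (by omega)]
          by_cases h : t = (l : ℕ)
          · rw [if_pos h, if_pos h]; norm_num
          · rw [if_neg h, if_neg h]; norm_num
        rw [e0, hN0, Matrix.one_mulVec] at h₀
        rw [e1] at h₁
        obtain ⟨μ, hμ, h⟩ := eig_aux (hN (1 + r) (by omega)) (ek_ne ht) h₀ h₁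
        exact ⟨μ, hμ, fun _ _ => h⟩
      · exact ⟨1, one_ne_zero, fun _ h => absurd h ht⟩
    · exact ⟨1, one_ne_zero, fun h => absurd h hr⟩
  choose m hm0 hm using hreg
  have hdiag : ∀ r < D, ∀ Z : Fin K → ℝ, N (1 + r) *ᵥ Z = fun l : Fin K => m r l * Z l :=
    fun r hr Z => diag_of (fun t ht => hm r t hr ht) Z
  refine ⟨m, fun r _ t _ => hm0 r t, ?_, ?_⟩
  · -- linear constraints
    intro c hc
    obtain ⟨hr, hp, hu, hnd, hne, hs⟩ := hLs c hc
    obtain ⟨i, hi, hci⟩ := List.getElem_of_mem hc
    have hz : (c, i) ∈ Ls.zipIdx := by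
      rw [List.mem_zipIdx_iff_getElem?]
      simp only
      rw [List.getElem?_eq_getElem hi, hci]
    obtain ⟨r, p, L, s⟩ := c
    simp only at hr hp hu hnd hne hs
    set a := 1 + D + i with ha
    have haR : a < 1 + D + Ls.length := by omega
    have hsub : ∀ x ∈ rowsL K (r, p, L, s) a, x ∈ rws D K Ls Rs := by
      intro x hx
      unfold rws
      simp only [List.mem_append]
      refine Or.inl (Or.inr ?_)
      rw [List.mem_flatMap]
      exact ⟨_, hz, hx⟩
    -- eigenvectors
    have heig : ∀ t : ℕ, ∃ μ : ℝ, (t < K → N a *ᵥ fk K p (cof L t : ℝ) t =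
        μ • fk K p (cof L t : ℝ) t) := by
      intro t
      by_cases ht : t < K
      · have hmem : ([(0, t, 1), (0, p, cof L t), (a, t, 1), (a, p, cof L t)] : Row) ∈
            rws D K Ls Rs := by
          apply hsub
          unfold rowsL
          rw [List.mem_append]
          exact Or.inl (List.mem_map.2 ⟨t, List.mem_range.2 ht, rfl⟩)
        obtain ⟨v, hv⟩ := hrow _ hmem
        obtain ⟨s₀, h₀⟩ := hv 0 (by omega)
        obtain ⟨s₁, h₁⟩ := hv a haR
        have e0 : bv K ([(0, t, 1), (0, p, cof L t), (a, t, 1), (a, p, cof L t)] : Row) 0 =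
            fk K p (cof L t : ℝ) t := by
          ext l
          simp only [bv, cf, fk, true_and]
          by_cases h : t = (l : ℕ)
          · rw [if_pos h, if_pos h]; norm_num
          · rw [if_neg h, if_neg h]
            by_cases h' : p = (l : ℕ)
            · rw [if_pos h', if_pos h']
            · rw [if_neg h', if_neg h', if_neg (fun q => h q.2), if_neg (fun q => h' q.2)]
              norm_num
        have e1 : bv K ([(0, t, 1), (0, p, cof L t), (a, t, 1), (a, p, cof L t)] : Row) a =
            fk K p (cof L t : ℝ) t := by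
          ext l
          simp only [bv, cf, fk, true_and]
          rw [if_neg (by omega), if_neg (by omega)]
          by_cases h : t = (l : ℕ)
          · rw [if_pos h, if_pos h]; norm_num
          · rw [if_neg h, if_neg h]
            by_cases h' : p = (l : ℕ)
            · rw [if_pos h', if_pos h']
            · rw [if_neg h', if_neg h']
              norm_num
        rw [e0, hN0, Matrix.one_mulVec] at h₀
        rw [e1] at h₁
        obtain ⟨μ, hμ, h⟩ := eig_aux (hN a haR) (fk_ne ht) h₀ h₁
        exact ⟨μ, fun _ => h⟩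
      · exact ⟨1, fun h => absurd h ht⟩
    choose μ hμ using heig
    -- the last row
    set x : Row := (L.map fun u => (a, u.1, (1 : ℚ))) ++ [(a, p, s)] ++
      (L.map fun u => (1 + r, u.1, (1 : ℚ))) ++ [(1 + r, p, (1 : ℚ))] with hxdef
    have hx : x ∈ rws D K Ls Rs := by
      apply hsub
      unfold rowsL
      rw [List.mem_append]
      exact Or.inr (by rw [List.mem_singleton])
    have hxa : ∀ b l, cf x b l = if a = b ∧ l ∈ L.map Prod.fst then 1 else
        if a = b ∧ p = l then s else if 1 + r = b ∧ l ∈ L.map Prod.fst then 1 else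
        if 1 + r = b ∧ p = l then 1 else 0 := by
      intro b l
      rw [hxdef, List.append_assoc, List.append_assoc, cf_map]
      congr 1
      rw [List.cons_append, List.nil_append]
      simp only [cf]
      rw [cf_map]
      simp only [cf]
    obtain ⟨v, hv⟩ := hrow _ hx
    obtain ⟨s₀, h₀⟩ := hv a haR
    obtain ⟨s₁, h₁⟩ := hv (1 + r) (by omega)
    have hpF : p ∉ L.map Prod.fst := by
      intro h
      obtain ⟨u, hu1, hu2⟩ := List.mem_map.1 h
      exact (hu u hu1).2 hu2
    obtain ⟨w, hw⟩ := List.exists_mem_of_ne_nil _ hne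
    have hwK := (hu w hw).1
    have hwF : w.1 ∈ L.map Prod.fst := List.mem_map_of_mem hw
    -- the block a
    have eY : bv K x a = (L.map fun u => fk K p (cof L u.1 : ℝ) u.1).sum := by
      ext l
      rw [sum_ap]
      simp only [bv, hxa, true_and]
      by_cases hl : (l : ℕ) ∈ L.map Prod.fst
      · rw [if_pos hl]
        have hlp : p ≠ (l : ℕ) := fun h => hpF (h ▸ hl)
        have h1 := sum_pick (fun _ => 1) (l : ℕ) L hnd
        rw [if_pos hl] at h1
        simp only [one_mul] at h1
        simp only [fk, if_neg hlp]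
        rw [h1]
        norm_num
      · rw [if_neg hl]
        by_cases hlp : p = (l : ℕ)
        · rw [if_pos hlp]
          have h1 : (L.map fun u => fk K p (cof L u.1 : ℝ) u.1 l) =
              L.map fun u => ((u.2 : ℚ) : ℝ) := by
            apply List.map_congr_left
            intro u huL
            simp only [fk]
            rw [if_neg, if_pos hlp, cof_eq hnd u huL]
            intro h2
            exact (hu u huL).2 (h2.trans hlp.symm)
          rw [h1, hs]
          exact cast_sum L
        · rw [if_neg hlp, if_neg (by omega), if_neg (by omega)]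
          symm
          rw [Rat.cast_zero]
          apply List.sum_eq_zero
          intro y hy
          obtain ⟨u, hu1, hu2⟩ := List.mem_map.1 hy
          rw [← hu2]
          simp only [fk]
          rw [if_neg, if_neg hlp]
          intro h2
          apply hl
          rw [← h2]
          exact List.mem_map_of_mem hu1
    -- the block of the register
    have eZ : ∀ l : Fin K, bv K x (1 + r) l =
        if (l : ℕ) ∈ L.map Prod.fst ∨ p = (l : ℕ) then 1 else 0 := by
      intro l
      simp only [bv, hxa, true_and]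
      rw [if_neg (by omega), if_neg (by omega)]
      by_cases hl : (l : ℕ) ∈ L.map Prod.fst
      · rw [if_pos hl, if_pos (Or.inl hl)]; norm_num
      · rw [if_neg hl]
        by_cases hlp : p = (l : ℕ)
        · rw [if_pos hlp, if_pos (Or.inr hlp)]; norm_num
        · rw [if_neg hlp, if_neg (fun h => h.elim hl hlp)]; norm_num
    have hYne : bv K x a ≠ 0 := by
      intro h
      have := congrFun h ⟨w.1, hwK⟩
      simp only [bv, hxa, true_and, if_pos hwF, Pi.zero_apply] at this
      norm_num at this
    have hZne : bv K x (1 + r) ≠ 0 := by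
      intro h
      have := congrFun h ⟨w.1, hwK⟩
      rw [eZ, if_pos (Or.inl hwF), Pi.zero_apply] at this
      norm_num at this
    have hs0 := smul_ne_aux (hN a haR) hYne h₀
    have hs1 := smul_ne_aux (hN (1 + r) (by omega)) hZne h₁
    have heq : s₁ • (N a *ᵥ bv K x a) = s₀ • (N (1 + r) *ᵥ bv K x (1 + r)) := by
      rw [h₀, h₁, smul_smul, smul_smul, mul_comm]
    have hY : N a *ᵥ bv K x a = (L.map fun u => μ u.1 • fk K p (cof L u.1 : ℝ) u.1).sum := by
      rw [eY, mulVec_sum_aux]
      congr 1
      apply List.map_congr_left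
      intro u huL
      exact hμ u.1 (hu u huL).1
    rw [hY, hdiag r hr] at heq
    have hcoord : ∀ l : Fin K, s₁ * (L.map fun u => μ u.1 * fk K p (cof L u.1 : ℝ) u.1 l).sum =
        s₀ * (m r l * bv K x (1 + r) l) := by
      intro l
      have := congrFun heq l
      rw [Pi.smul_apply, Pi.smul_apply, sum_ap, smul_eq_mul, smul_eq_mul] at this
      simp only [Pi.smul_apply, smul_eq_mul] at this
      exact this
    -- coordinates in F
    have hF : ∀ u ∈ L, s₁ * μ u.1 = s₀ * m r u.1 := by
      intro u huL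
      have huK := (hu u huL).1
      have huF : u.1 ∈ L.map Prod.fst := List.mem_map_of_mem huL
      have h1 := hcoord ⟨u.1, huK⟩
      rw [eZ] at h1
      simp only at h1
      rw [if_pos (Or.inl huF), mul_one] at h1
      rw [← h1]
      congr 1
      have h2 := sum_pick μ u.1 L hnd
      rw [if_pos huF] at h2
      rw [← h2]
      congr 1
      apply List.map_congr_left
      intro q hq
      simp only [fk]
      rw [if_neg (hu u huL).2.symm]
    -- the coordinate p
    have h1 := hcoord ⟨p, hp⟩
    rw [eZ, if_pos (Or.inr rfl), mul_one] at h1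
    have h2 : (L.map fun u => μ u.1 * fk K p (cof L u.1 : ℝ) u.1 ⟨p, hp⟩) =
        L.map fun u => μ u.1 * ((u.2 : ℚ) : ℝ) := by
      apply List.map_congr_left
      intro u huL
      simp only [fk]
      rw [if_neg (hu u huL).2, if_true, cof_eq hnd u huL]
    rw [h2] at h1
    have h3 : s₁ * (L.map fun u => μ u.1 * ((u.2 : ℚ) : ℝ)).sum =
        s₀ * (L.map fun u => ((u.2 : ℚ) : ℝ) * m r u.1).sum := by
      have h4 : ∀ M : List (ℕ × ℚ), (∀ u ∈ M, s₁ * μ u.1 = s₀ * m r u.1) →
          s₁ * (M.map fun u => μ u.1 * ((u.2 : ℚ) : ℝ)).sum =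
          s₀ * (M.map fun u => ((u.2 : ℚ) : ℝ) * m r u.1).sum := by
        intro M hM
        induction M with
        | nil => simp
        | cons u M ih =>
          simp only [List.map_cons, List.sum_cons, mul_add]
          rw [ih (fun u hu => hM u (List.mem_cons_of_mem _ hu))]
          congr 1
          rw [← mul_assoc, hM u List.mem_cons_self]
          ring
      exact h4 L hF
    rw [h3] at h1
    have h5 := mul_left_cancel₀ hs0 h1
    exact h5.symm
  · -- ratio constraints
    intro c hc
    obtain ⟨hr, hr', hi, hj, hij⟩ := hRs c hc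
    obtain ⟨r, r', i, j⟩ := c
    simp only at hr hr' hi hj hij
    have hx : rowR (r, r', i, j) ∈ rws D K Ls Rs := by
      unfold rws
      simp only [List.mem_append]
      exact Or.inr (List.mem_map_of_mem hc)
    obtain ⟨v, hv⟩ := hrow _ hx
    obtain ⟨s₀, h₀⟩ := hv (1 + r) (by omega)
    obtain ⟨s₁, h₁⟩ := hv (1 + r') (by omega)
    have e0 : ∀ l : Fin K, bv K (rowR (r, r', i, j)) (1 + r) l =
        if i = (l : ℕ) ∨ j = (l : ℕ) then 1 else 0 := by
      intro l
      simp only [bv, cf, rowR, true_and]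
      by_cases h : i = (l : ℕ)
      · rw [if_pos h, if_pos (Or.inl h)]; norm_num
      · rw [if_neg h]
        by_cases h' : j = (l : ℕ)
        · rw [if_pos h', if_pos (Or.inr h')]; norm_num
        · rw [if_neg h', if_neg (fun q => h q.2), if_neg (fun q => h' q.2),
            if_neg (fun q => q.elim h h')]
          norm_num
    have e1 : ∀ l : Fin K, bv K (rowR (r, r', i, j)) (1 + r') l =
        if i = (l : ℕ) ∨ j = (l : ℕ) then 1 else 0 := by
      intro l
      simp only [bv, cf, rowR, true_and]
      by_cases h : i = (l : ℕ)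
      · rw [if_pos (Or.inl h)]
        by_cases hrr : 1 + r = 1 + r'
        · rw [if_pos ⟨hrr, h⟩]; norm_num
        · rw [if_neg (fun q => hrr q.1), if_neg (fun q => hrr q.1), if_pos h]; norm_num
      · rw [if_neg (fun q => h q.2)]
        by_cases h' : j = (l : ℕ)
        · rw [if_pos (Or.inr h')]
          by_cases hrr : 1 + r = 1 + r'
          · rw [if_pos ⟨hrr, h'⟩]; norm_num
          · rw [if_neg (fun q => hrr q.1), if_neg h, if_pos h']; norm_num
        · rw [if_neg (fun q => h' q.2), if_neg h, if_neg h', if_neg (fun q => q.elim h h')]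
          norm_num
    have hY : bv K (rowR (r, r', i, j)) (1 + r) ≠ 0 := by
      intro h
      have := congrFun h ⟨i, hi⟩
      rw [e0, if_pos (Or.inl rfl), Pi.zero_apply] at this
      norm_num at this
    have hZ : bv K (rowR (r, r', i, j)) (1 + r') ≠ 0 := by
      intro h
      have := congrFun h ⟨i, hi⟩
      rw [e1, if_pos (Or.inl rfl), Pi.zero_apply] at this
      norm_num at this
    have hs0 := smul_ne_aux (hN (1 + r) (by omega)) hY h₀
    have hs1 := smul_ne_aux (hN (1 + r') (by omega)) hZ h₁
    rw [hdiag r hr] at h₀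
    rw [hdiag r' hr'] at h₁
    have i0 := congrFun h₀ ⟨i, hi⟩
    have j0 := congrFun h₀ ⟨j, hj⟩
    have i1 := congrFun h₁ ⟨i, hi⟩
    have j1 := congrFun h₁ ⟨j, hj⟩
    simp only [e0, e1, true_or, or_true, if_true, mul_one, Pi.smul_apply, smul_eq_mul] at i0 j0 i1 j1
    simp only [RH]
    rw [i0, j0, i1, j1]
    ring

end Pool.Agent.Q63.HD
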