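import Pool.Agent.Q230.HD.St

/-!
# Project HD, part F: systems of constraints and the intermediate problem
-/

set_option autoImplicit false

namespace Pool.Agent.Q63.HD

open Pool.Agent.NPC Pool.Agent.NPC.ER Matrix
open Pool.Agent.Q230.HD

theorem ri_lt {T : List Con} {c : Con} (hc : c ∈ T) {i : ℕ} (hi : i ∈ c.vars) :
    ri T i < (svars T).length := List.idxOf_lt_length_of_mem (mem_svars hc hi)

theorem get_ri {T : List Con} {c : Con} (hc : c ∈ T) {i : ℕ} (hi : i ∈ c.vars) :
    (svars T).getD (ri T i) 0 = i := by
  have h1 := ri_lt hc hi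
  rw [List.getD_eq_getElem _ _ h1]
  exact List.getElem_idxOf h1

theorem mem_zip {T : List Con} {p : Con × ℕ} (hp : p ∈ T.zipIdx) :
    p.1 ∈ T ∧ p.2 < T.length ∧ T.getD p.2 (ER.Con.one 0) = p.1 := by
  obtain ⟨c, t⟩ := p
  have h := List.mem_zipIdx_iff_getElem?.1 hp
  simp only at h
  obtain ⟨h1, h2⟩ := List.getElem?_eq_some_iff.1 h
  refine ⟨?_, h1, ?_⟩
  · rw [← h2]; exact List.getElem_mem _
  · rw [List.getD_eq_getElem _ _ h1]; exact h2

theorem sf1 (T : List Con) :
    (∀ c ∈ lsys T, LOK (nD T) (nK T) c) ∧ ∀ c ∈ rsys T, ROK (nD T) (nK T) c := by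
  constructor
  · intro c hc
    obtain ⟨p, hp, hc⟩ := List.mem_flatMap.1 hc
    obtain ⟨h1, h2, -⟩ := mem_zip hp
    obtain ⟨d, t⟩ := p
    simp only at h1 h2 hc
    cases d with
    | one i =>
      have hi := ri_lt h1 (i := i) (by simp [Con.vars])
      simp only [lcs, List.mem_singleton] at hc
      subst hc
      simp only [LOK, List.mem_singleton, forall_eq, List.map_cons, List.map_nil,
        List.nodup_singleton, List.sum_cons, List.sum_nil, nD, nK, pos, nR]
      refine ⟨by omega, by omega, ⟨by omega, by omega⟩, trivial, by simp, by norm_num⟩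
    | add i j k =>
      have hi := ri_lt h1 (i := i) (by simp [Con.vars])
      have hj := ri_lt h1 (i := j) (by simp [Con.vars])
      have hk := ri_lt h1 (i := k) (by simp [Con.vars])
      simp only [lcs, List.mem_cons, List.not_mem_nil, or_false] at hc
      rcases hc with rfl | rfl | rfl | rfl
      · simp only [LOK, List.mem_singleton, forall_eq, List.map_cons, List.map_nil,
          List.nodup_singleton, List.sum_cons, List.sum_nil, nD, nK, pos, nR]
        refine ⟨by omega, by omega, ⟨by omega, by omega⟩, trivial, by simp, by norm_num⟩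
      · simp only [LOK, List.mem_singleton, forall_eq, List.map_cons, List.map_nil,
          List.nodup_singleton, List.sum_cons, List.sum_nil, nD, nK, pos, nR]
        refine ⟨by omega, by omega, ⟨by omega, by omega⟩, trivial, by simp, by norm_num⟩
      · simp only [LOK, List.mem_singleton, forall_eq, List.map_cons, List.map_nil,
          List.nodup_singleton, List.sum_cons, List.sum_nil, nD, nK, pos, nR]
        refine ⟨by omega, by omega, ⟨by omega, by omega⟩, trivial, by simp, by norm_num⟩
      · refine ⟨by simp only [nD]; omega, by simp only [pos, nK, nR, nD]; omega, ?_, ?_, by simp,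
          by norm_num⟩
        · intro u hu
          simp only [List.mem_cons, List.not_mem_nil, or_false] at hu
          rcases hu with rfl | rfl | rfl <;> simp only [pos, nK, nR, nD] <;>
            constructor <;> omega
        · simp only [List.map_cons, List.map_nil, pos, List.nodup_cons, List.mem_cons,
            List.not_mem_nil, or_false, not_or, not_false_eq_true, List.nodup_nil, and_true]
          refine ⟨⟨by omega, by omega⟩, by omega⟩
    | mul i j k =>
      have hi := ri_lt h1 (i := i) (by simp [Con.vars])
      have hj := ri_lt h1 (i := j) (by simp [Con.vars])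
      have hk := ri_lt h1 (i := k) (by simp [Con.vars])
      simp only [lcs, List.mem_cons, List.not_mem_nil, or_false] at hc
      rcases hc with rfl | rfl | rfl | rfl | rfl | rfl
      · simp only [LOK, List.mem_singleton, forall_eq, List.map_cons, List.map_nil,
          List.nodup_singleton, List.sum_cons, List.sum_nil, nD, nK, pos, nR]
        refine ⟨by omega, by omega, ⟨by omega, by omega⟩, trivial, by simp, by norm_num⟩
      · simp only [LOK, List.mem_singleton, forall_eq, List.map_cons, List.map_nil,
          List.nodup_singleton, List.sum_cons, List.sum_nil, nD, nK, pos, nR]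
        refine ⟨by omega, by omega, ⟨by omega, by omega⟩, trivial, by simp, by norm_num⟩
      · simp only [LOK, List.mem_singleton, forall_eq, List.map_cons, List.map_nil,
          List.nodup_singleton, List.sum_cons, List.sum_nil, nD, nK, pos, nR]
        refine ⟨by omega, by omega, ⟨by omega, by omega⟩, trivial, by simp, by norm_num⟩
      · refine ⟨by simp only [nD]; omega, by simp only [pos, nK, nR, nD]; omega, ?_, ?_, by simp,
          by norm_num⟩
        · intro u hu
          simp only [List.mem_cons, List.not_mem_nil, or_false] at hu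
          rcases hu with rfl | rfl | rfl | rfl <;> simp only [pos, nK, nR, nD] <;>
            constructor <;> omega
        · simp only [List.map_cons, List.map_nil, pos, List.nodup_cons, List.mem_cons,
            List.not_mem_nil, or_false, not_or, not_false_eq_true, List.nodup_nil, and_true]
          refine ⟨⟨by omega, by omega, by omega⟩, ⟨by omega, by omega⟩, by omega⟩
      · simp only [LOK, List.mem_singleton, forall_eq, List.map_cons, List.map_nil,
          List.nodup_singleton, List.sum_cons, List.sum_nil, nD, nK, pos, nR]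
        refine ⟨by omega, by omega, ⟨by omega, by omega⟩, trivial, by simp, by norm_num⟩
      · simp only [LOK, List.mem_singleton, forall_eq, List.map_cons, List.map_nil,
          List.nodup_singleton, List.sum_cons, List.sum_nil, nD, nK, pos, nR]
        refine ⟨by omega, by omega, ⟨by omega, by omega⟩, trivial, by simp, by norm_num⟩
  · intro c hc
    obtain ⟨p, hp, hc⟩ := List.mem_flatMap.1 hc
    obtain ⟨h1, h2, -⟩ := mem_zip hp
    obtain ⟨d, t⟩ := p
    simp only at h1 h2 hc
    cases d with
    | one i => simp [rcs] at hc
    | add i j k => simp [rcs] at hc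
    | mul i j k =>
      simp only [rcs, List.mem_cons, List.not_mem_nil, or_false] at hc
      rcases hc with rfl | rfl
      · simp only [ROK, nD, nK, pos, nR]
        refine ⟨by omega, by omega, by omega, by omega, by omega⟩
      · simp only [ROK, nD, nK, pos, nR]
        refine ⟨by omega, by omega, by omega, by omega, by omega⟩

/-- the values of the coordinates of a constraint -/
noncomputable def cv (X : ℕ → ℝ) : Con → ℕ → ℝ
  | ER.Con.one _, _ => 1
  | ER.Con.add i j k, d => if d = 0 then X i else if d = 1 then X j else if d = 2 then X k else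
      X i * X j
  | ER.Con.mul i j k, d => if d = 0 then X i else if d = 1 then X j else if d = 2 then X k else
      X i * X j

/-- the value of the first variable -/
noncomputable def cf1 (X : ℕ → ℝ) : Con → ℝ
  | ER.Con.one _ => 1
  | ER.Con.add i _ _ => X i
  | ER.Con.mul i _ _ => X i

/-- the solution -/
noncomputable def sol (T : List Con) (X : ℕ → ℝ) (r z : ℕ) : ℝ :=
  if r = 0 then
    (if z = 0 then 1 else if z ≤ (svars T).length then X ((svars T).getD (z - 1) 0) else
      cv X (T.getD ((z - (1 + (svars T).length)) / 4) (ER.Con.one 0))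
        ((z - (1 + (svars T).length)) % 4))
  else
    (if z = pos T (r - 1) ∨ z = pos T (r - 1) + 3 then cf1 X (T.getD (r - 1) (ER.Con.one 0)) else 1)

theorem sol_ne (T : List Con) (X : ℕ → ℝ) (hX : ∀ i, X i ≠ 0) (r z : ℕ) : sol T X r z ≠ 0 := by
  have h1 : ∀ c d, cv X c d ≠ 0 := by
    intro c d
    cases c with
    | one i => simp [cv]
    | add i j k =>
      simp only [cv]
      split_ifs
      · exact hX _
      · exact hX _
      · exact hX _
      · exact mul_ne_zero (hX _) (hX _)
    | mul i j k =>
      simp only [cv]
      split_ifs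
      · exact hX _
      · exact hX _
      · exact hX _
      · exact mul_ne_zero (hX _) (hX _)
  have h2 : ∀ c, cf1 X c ≠ 0 := by
    intro c
    cases c with
    | one i => simp [cf1]
    | add i j k => exact hX _
    | mul i j k => exact hX _
  unfold sol
  split_ifs
  · exact one_ne_zero
  · exact hX _
  · exact h1 _ _
  · exact h2 _
  · exact one_ne_zero

theorem sol_00 (T : List Con) (X : ℕ → ℝ) : sol T X 0 0 = 1 := by simp [sol]

theorem sol_r0 (T : List Con) (X : ℕ → ℝ) (r : ℕ) : sol T X (1 + r) 0 = 1 := by
  unfold sol
  rw [if_neg (by omega), if_neg]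
  unfold pos
  omega

theorem sol_var {T : List Con} (X : ℕ → ℝ) {c : Con} (hc : c ∈ T) {i : ℕ} (hi : i ∈ c.vars) :
    sol T X 0 (1 + ri T i) = X i := by
  have h1 := ri_lt hc hi
  unfold sol
  rw [if_pos rfl, if_neg (by omega), if_pos (by omega)]
  have : 1 + ri T i - 1 = ri T i := by omega
  rw [this, get_ri hc hi]

theorem sol_pos (T : List Con) (X : ℕ → ℝ) (t d : ℕ) (hd : d < 4) :
    sol T X 0 (pos T t + d) = cv X (T.getD t (ER.Con.one 0)) d := by
  unfold sol
  rw [if_pos rfl, if_neg (by unfold pos; omega), if_neg (by unfold pos; omega)]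
  have h1 : pos T t + d - (1 + (svars T).length) = 4 * t + d := by unfold pos; omega
  rw [h1]
  have h2 : (4 * t + d) / 4 = t := by omega
  have h3 : (4 * t + d) % 4 = d := by omega
  rw [h2, h3]

theorem sol_reg (T : List Con) (X : ℕ → ℝ) (t : ℕ) :
    sol T X (1 + t) (pos T t) = cf1 X (T.getD t (ER.Con.one 0)) ∧
    sol T X (1 + t) (pos T t + 1) = 1 ∧
    sol T X (1 + t) (pos T t + 3) = cf1 X (T.getD t (ER.Con.one 0)) := by
  have h1 : 1 + t - 1 = t := by omega
  unfold sol
  rw [if_neg (by omega), h1]
  refine ⟨?_, ?_, ?_⟩
  · rw [if_pos (Or.inl rfl)]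
  · rw [if_neg (by omega), if_neg (by omega)]
  · rw [if_neg (by omega), if_pos (Or.inr rfl)]

theorem sf2 (T : List Con) (w : ℕ → ℝ) (hw : ∀ i, |w i| ≤ 1 / 8)
    (hT : ∀ c ∈ T, c.HoldsC (1 / 8) w) : Prob (nD T) (nK T) (lsys T) (rsys T) := by
  have hX : ∀ i, (1 + w i) ≠ 0 := by
    intro i
    have := (abs_le.1 (hw i)).1
    intro h
    linarith
  refine ⟨sol T (fun i => 1 + w i), fun r _ z _ => sol_ne T _ hX r z, ?_, ?_⟩
  · intro c hc
    obtain ⟨p, hp, hc⟩ := List.mem_flatMap.1 hc
    obtain ⟨h1, h2, h3⟩ := mem_zip hp
    obtain ⟨d, t⟩ := p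
    simp only at h1 h2 h3 hc
    have hd := hT d h1
    have p0 := sol_pos T (fun i => 1 + w i) t 0 (by norm_num)
    have p1 := sol_pos T (fun i => 1 + w i) t 1 (by norm_num)
    have p2 := sol_pos T (fun i => 1 + w i) t 2 (by norm_num)
    have p3 := sol_pos T (fun i => 1 + w i) t 3 (by norm_num)
    obtain ⟨r0, r1, r3⟩ := sol_reg T (fun i => 1 + w i) t
    have z0 := sol_00 T (fun i => 1 + w i)
    have z1 := sol_r0 T (fun i => 1 + w i) t
    rw [h3] at p0 p1 p2 p3 r0 r3
    rw [add_zero] at p0
    cases d with
    | one i =>
      have hi := sol_var (fun i => 1 + w i) h1 (i := i) (by simp [Con.vars])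
      simp only [lcs, List.mem_singleton] at hc
      subst hc
      simp only [Con.HoldsC] at hd
      simp only [LH, List.map_cons, List.map_nil, List.sum_cons, List.sum_nil, hi, z0, hd]
      norm_num
    | add i j k =>
      have hi := sol_var (fun i => 1 + w i) h1 (i := i) (by simp [Con.vars])
      have hj := sol_var (fun i => 1 + w i) h1 (i := j) (by simp [Con.vars])
      have hk := sol_var (fun i => 1 + w i) h1 (i := k) (by simp [Con.vars])
      simp only [Con.HoldsC] at hd
      simp only [cv] at p0 p1 p2 p3
      simp only [lcs, List.mem_cons, List.not_mem_nil, or_false] at hc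
      rcases hc with rfl | rfl | rfl | rfl
      · simp only [LH, List.map_cons, List.map_nil, List.sum_cons, List.sum_nil, hi, p0]
        norm_num
      · simp only [LH, List.map_cons, List.map_nil, List.sum_cons, List.sum_nil, hj, p1]
        norm_num
      · simp only [LH, List.map_cons, List.map_nil, List.sum_cons, List.sum_nil, hk, p2]
        norm_num
      · simp only [LH, List.map_cons, List.map_nil, List.sum_cons, List.sum_nil, p0, p1, p2, z0]
        norm_num
        linarith
    | mul i j k =>
      have hi := sol_var (fun i => 1 + w i) h1 (i := i) (by simp [Con.vars])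
      have hj := sol_var (fun i => 1 + w i) h1 (i := j) (by simp [Con.vars])
      have hk := sol_var (fun i => 1 + w i) h1 (i := k) (by simp [Con.vars])
      simp only [Con.HoldsC] at hd
      simp only [cv] at p0 p1 p2 p3
      simp only [lcs, List.mem_cons, List.not_mem_nil, or_false] at hc
      rcases hc with rfl | rfl | rfl | rfl | rfl | rfl
      · simp only [LH, List.map_cons, List.map_nil, List.sum_cons, List.sum_nil, hi, p0]
        norm_num
      · simp only [LH, List.map_cons, List.map_nil, List.sum_cons, List.sum_nil, hj, p1]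
        norm_num
      · simp only [LH, List.map_cons, List.map_nil, List.sum_cons, List.sum_nil, hk, p2]
        norm_num
      · simp only [LH, List.map_cons, List.map_nil, List.sum_cons, List.sum_nil, p0, p1, p2, p3, z0]
        norm_num
        linarith
      · simp only [LH, List.map_cons, List.map_nil, List.sum_cons, List.sum_nil, r1, z1]
        norm_num
      · simp only [LH, List.map_cons, List.map_nil, List.sum_cons, List.sum_nil, r0, r3]
        norm_num
  · intro c hc
    obtain ⟨p, hp, hc⟩ := List.mem_flatMap.1 hc
    obtain ⟨h1, h2, h3⟩ := mem_zip hp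
    obtain ⟨d, t⟩ := p
    simp only at h1 h2 h3 hc
    have hd := hT d h1
    have p0 := sol_pos T (fun i => 1 + w i) t 0 (by norm_num)
    have p1 := sol_pos T (fun i => 1 + w i) t 1 (by norm_num)
    have p3 := sol_pos T (fun i => 1 + w i) t 3 (by norm_num)
    obtain ⟨r0, r1, r3⟩ := sol_reg T (fun i => 1 + w i) t
    have z0 := sol_00 T (fun i => 1 + w i)
    have z1 := sol_r0 T (fun i => 1 + w i) t
    rw [h3] at p0 p1 p3 r0 r3
    rw [add_zero] at p0
    cases d with
    | one i => simp [rcs] at hc
    | add i j k => simp [rcs] at hc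
    | mul i j k =>
      simp only [rcs, List.mem_cons, List.not_mem_nil, or_false] at hc
      simp only [cv] at p0 p1 p3
      simp only [cf1] at r0 r3
      rcases hc with rfl | rfl
      · simp only [RH, z0, z1, p0, r0]
        norm_num
      · simp only [RH, p1, r1, p3, r3]
        norm_num
        ring

theorem sf3 (T : List Con) (h : Prob (nD T) (nK T) (lsys T) (rsys T)) :
    ∃ w : ℕ → ℝ, ∀ c ∈ T, c.HoldsC (1 / 8) w := by
  obtain ⟨m, hm, hL, hR⟩ := h
  have hu : m 0 0 ≠ 0 := hm 0 (by unfold nD; omega) 0 (by unfold nK pos; omega)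
  refine ⟨fun i => m 0 (1 + ri T i) / m 0 0 - 1, ?_⟩
  intro d hd
  obtain ⟨t, ht, hdt⟩ := List.getElem_of_mem hd
  have hz : (d, t) ∈ T.zipIdx := by
    rw [List.mem_zipIdx_iff_getElem?]
    simp only
    rw [List.getElem?_eq_getElem ht, hdt]
  have hl : ∀ c ∈ lcs T d t, LH m c := fun c hc => hL c (List.mem_flatMap.2 ⟨(d, t), hz, hc⟩)
  have hr : ∀ c ∈ rcs T d t, RH m c := fun c hc => hR c (List.mem_flatMap.2 ⟨(d, t), hz, hc⟩)
  cases d with
  | one i =>
    simp only [lcs, List.mem_singleton, forall_eq, LH, List.map_cons, List.map_nil,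
      List.sum_cons, List.sum_nil] at hl
    simp only [Con.HoldsC]
    rw [hl]
    push_cast
    field_simp
    ring
  | add i j k =>
    simp only [lcs, List.forall_mem_cons, List.not_mem_nil, false_imp_iff, forall_const, and_true,
      LH, List.map_cons, List.map_nil, List.sum_cons, List.sum_nil] at hl
    obtain ⟨e1, e2, e3, e4⟩ := hl
    push_cast at e1 e2 e3 e4
    simp only [Con.HoldsC]
    field_simp
    linarith
  | mul i j k =>
    simp only [lcs, List.forall_mem_cons, List.not_mem_nil, false_imp_iff, forall_const, and_true,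
      LH, List.map_cons, List.map_nil, List.sum_cons, List.sum_nil] at hl
    obtain ⟨e1, e2, e3, e4, e5, e6⟩ := hl
    push_cast at e1 e2 e3 e4 e5 e6
    simp only [rcs, List.forall_mem_cons, List.not_mem_nil, false_imp_iff, forall_const, and_true,
      RH] at hr
    obtain ⟨f1, f2⟩ := hr
    have hh : m (1 + t) 0 ≠ 0 :=
      hm (1 + t) (by unfold nD; omega) 0 (by unfold nK pos; omega)
    set x := m 0 (pos T t) with hx
    set y := m 0 (pos T t + 1) with hy
    set z := m 0 (pos T t + 2) with hz
    set P := m 0 (pos T t + 3) with hP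
    set g := m (1 + t) 0 with hg
    set a := m (1 + t) (pos T t) with ha
    set u := m 0 0 with hu0
    have e5' : m (1 + t) (pos T t + 1) = g := by linarith
    have e6' : m (1 + t) (pos T t + 3) = a := by linarith
    rw [e5', e6'] at f2
    have k1 : x * y = u * P := by
      have : g * (x * y - u * P) = 0 := by
        have h1 : u * a = x * g := f1
        have h2 : y * a = P * g := f2
        have : g * (x * y) = u * a * y := by rw [h1]; ring
        have h3 : g * (u * P) = u * (P * g) := by ring
        rw [mul_sub, this, h3, ← h2]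
        ring
      rcases mul_eq_zero.1 this with h | h
      · exact absurd h hh
      · linarith
    have k2 : P = x + y + z - 2 * u := by linarith
    have j1 : m 0 (1 + ri T i) = x := by linarith
    have j2 : m 0 (1 + ri T j) = y := by linarith
    have j3 : m 0 (1 + ri T k) = z := by linarith
    simp only [Con.HoldsC]
    rw [j1, j2, j3]
    rw [k2] at k1
    field_simp
    linarith

/-- **S_F.** -/
theorem sf : S_F := by
  refine ⟨sf1, fun S => ⟨fun h => ?_, fun h => ?_⟩⟩
  · obtain ⟨w, hw, hc⟩ := bsys_of_sat h
    exact sf2 _ w hw hc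
  · obtain ⟨w, hw⟩ := sf3 _ h
    exact sat_of_bsys hw

end Pool.Agent.Q63.HD
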